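import Pool.Agent.N806.AH.Fin

/-!
# The Alternative Hypothesis cannot hold with a rate better than `(log γ)^(-3/2)`

Assume the Riemann hypothesis. For every real `β` let `x_β(t) = t log t / 2π + β t` and
`d_j = x_β(γ_{j+1}) - x_β(γ_j)`; for `β = 0` these are the normalised spacings of the Alternative
Hypothesis. We show that for all large `T` at least `c T / (log T)²` of the spacings with
`T / C ≤ γ_j ≤ T` have a distance at least `c (log T)^(-3/2)` from each of the numbers
`1/2, 1, 3/2, 2, …`.

Idea of the proof. If all the spacings of the zeros in a window are within `η = c (log T)^(-3/2)` of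
half-integers, then, with `χ` the factor of the functional equation, the phase
`χ(1/2 + iγ)^(-2) y^(iγ)`, `y = exp (-2 - 4πβ - 2 log 2π)`, is nearly the same at all the zeros of
the window, the zeros there are simple and separated, and so the function
`(1 + c y^(s-1/2) χ(1-s)²) / ζ(s)` is nearly regular there. On RH this allows to compare the
Dirichlet series of `1/ζ(s)` on the right of the critical line with its reflection on the left: the
Mellin transforms of `x ↦ e(l x)`-like sums of the Möbius function against a smooth weight then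
carry, for each squarefree `l`, a mass at `l` and at the shifts by `1/y`. Together with the fact that
the squarefree numbers omit residue classes modulo squares, Bessel's inequality is violated if the
good windows cover too much of `[T / C, T]`.
-/

set_option autoImplicit false

namespace Pool.Agent.N806.Shelf.RateForAH

/-- the multiplicity of `s` as a zero of the Riemann zeta function (order of vanishing at `s`) -/
noncomputable def zmult (s : ℂ) : ℕ := analyticOrderNatAt riemannZeta s

/-- the nontrivial zeros of `ζ` with ordinate in `(0, T]` -/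
def zeros (T : ℝ) : Set ℂ :=
  {s : ℂ | riemannZeta s = 0 ∧ 0 < s.re ∧ s.re < 1 ∧ 0 < s.im ∧ s.im ≤ T}

/-- the number of the nontrivial zeros of `ζ` with ordinate in `(0, T]`, with multiplicity -/
noncomputable def N (T : ℝ) : ℕ := ∑ᶠ s ∈ zeros T, zmult s

/-- for `j ≥ 1`: the `j`-th positive ordinate `γ j` of a nontrivial zero of `ζ`, the ordinates being
listed in nondecreasing order and repeated according to multiplicity -/
noncomputable def γ (j : ℕ) : ℝ := sInf {t : ℝ | j ≤ N t}

/-- the normalised height `x_β(t) = t log t / 2π + β t` -/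
noncomputable def x (β t : ℝ) : ℝ := t * Real.log t / (2 * Real.pi) + β * t

/-- the normalised spacings `x_β(γ_{j+1}) - x_β(γ_j)`; for `β = 0` this is
`(γ_{j+1} log γ_{j+1} - γ_j log γ_j) / 2π` -/
noncomputable def d (β : ℝ) (j : ℕ) : ℝ := x β (γ (j + 1)) - x β (γ j)

lemma ord_eq (n : ℕ) : γ n = SG.ord n := rfl

lemma db_eq (β : ℝ) (n : ℕ) : d β n = Pool.Agent.N806.AH.db β n := rfl

/-- **Theorem.** On the Riemann hypothesis, for every real `β` there are `c > 0`, `C ≥ 1` and `T₀`
such that for all `T ≥ T₀` at least `c T / (log T)²` of the indices `j ≥ 1` with `T / C ≤ γ_j ≤ T`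
satisfy `|d_j - k / 2| ≥ c (log T)^(-3/2)` for all `k = 1, 2, 3, …`. -/
theorem result (RH : RiemannHypothesis) (β : ℝ) :
    ∃ c C T₀ : ℝ, 0 < c ∧ 1 ≤ C ∧ 1 < T₀ ∧ ∀ T : ℝ, T₀ ≤ T →
      c * T / Real.log T ^ 2 ≤
        ({j : ℕ | 1 ≤ j ∧ T / C ≤ γ j ∧ γ j ≤ T ∧
          ∀ k : ℕ, 1 ≤ k → c / Real.log T ^ (3 / 2 : ℝ) ≤ |d β j - k / 2|}.ncard : ℝ) := by
  classical
  obtain ⟨c, C, T₀, h1, h2, h3, h4⟩ := Pool.Agent.N806.AH.main RH β
  refine ⟨c, C, T₀, h1, h2, h3, fun T hT => ?_⟩
  refine (h4 T hT).trans (le_of_eq ?_)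
  rw [← Set.ncard_coe_finset]
  congr 2
  ext n
  unfold Pool.Agent.N806.AH.BadS
  rw [Finset.mem_coe, Finset.mem_filter, Finset.mem_Icc]
  constructor
  · rintro ⟨⟨a1, a2⟩, a3, a4⟩
    exact ⟨a1, a3, (SG.ord_le_iff a1 T).2 a2, a4⟩
  · rintro ⟨a1, a2, a3, a4⟩
    exact ⟨⟨a1, (SG.ord_le_iff a1 T).1 a3⟩, a2, a4⟩

end Pool.Agent.N806.Shelf.RateForAH
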